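import Pool.Agent.Q65.KHe

/-!
# Stability deficit in the third-moment Khintchine inequality

There is a constant `C > 0` such that for every `n ≥ 1` and every real unit vector `a` of length `n`
`E |S|^3 ≤ E |S_n|^3 - C * ∑ (a_i^2 - 1/n)^2`, where `S = ∑ a_i ε_i` with independent random signs
and `S_n = n^(-1/2) ∑ ε_i`.
-/

set_option autoImplicit false

namespace Pool.Agent.Results.MP_223ae3_pr.ThirdMomentStability

/-- The sign `1` or `-1` coded by a Boolean. -/
def sign (b : Bool) : ℝ := if b then 1 else -1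

/-- The third absolute moment `E |a_1 ε_1 + ... + a_n ε_n|^3` of the weighted sum of `n` independent
random signs: the average over the `2 ^ n` sign vectors. -/
noncomputable def thirdMoment (n : ℕ) (a : Fin n → ℝ) : ℝ :=
  (∑ ε : Fin n → Bool, |∑ i, a i * sign (ε i)| ^ 3) / 2 ^ n

theorem result :
    ∃ C : ℝ, 0 < C ∧ ∀ n : ℕ, 1 ≤ n → ∀ a : Fin n → ℝ, ∑ i, a i ^ 2 = 1 →
      thirdMoment n a ≤ thirdMoment n (fun _ => 1 / Real.sqrt n) -
        C * ∑ i, (a i ^ 2 - 1 / n) ^ 2 :=
  Q65.KH.stability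

end Pool.Agent.Results.MP_223ae3_pr.ThirdMomentStability
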